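import Pool.Agent.E8helper72.LW.Fin

/-!
# Quasi-periodic symmetric walks over a Liouville rotation: the variance exponent is below 2

For a suitable Liouville number `α` and for EVERY smooth symmetric `P`, for almost every starting
point `x` one has `Var_x (Z_T) ≤ T ^ (2 - 1 / 250)` for all large `T`. So the identity
`limsup ln Var_x (Z_T) / ln T = 2` for almost every `x` fails for every `P`, and the set of the `P`
for which it holds, being empty, contains no dense `G_δ` set.

Idea. Let `f = ln ((1 - P) / P)`, let `p / q` be a very good approximation of `α` and `D = 1 / |q α - p|`.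
On the scale `D` the walk sees the slope `g (q x + k / D)`, `g (y) = (1 / q) ∑_{j < q} f ((y + j) / q)`, and
`g` is periodic with mean zero and bounded second derivative. To be spread over a distance of order
`D` at a time `T ≤ D ^ (1 + ε)` the walk would have to cross a place where `g` is nearly zero without
changing its sign; by the bound for the second derivative such a place is part of an interval of slow
motion, which is not crossed up to the time `T`. For `T ≥ D ^ (1 + ε)` the intervals of slow motion near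
the maximum and the minimum of `g` bound the mean displacement, and for `T ≤ D ^ (1 / 3)` the
environment is nearly periodic, with a diffusive bound from its harmonic coordinate.
-/

namespace Pool.Agent.Results.MP_545af4_pr.NotQuadraticH72

open MeasureTheory Filter

/-- The set of the symmetric walks: smooth `1`-periodic functions with values in `(0, 1)` and
`∫ ln P = ∫ ln (1 - P)`. -/
structure Symmetric (P : ℝ → ℝ) : Prop where
  smooth : ∀ n : ℕ, ContDiff ℝ n P
  periodic : ∀ y, P (y + 1) = P y
  pos : ∀ y, 0 < P y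
  lt_one : ∀ y, P y < 1
  symmetric : ∫ y in (0 : ℝ)..1, Real.log (P y) = ∫ y in (0 : ℝ)..1, Real.log (1 - P y)

/-- `law P α x t k` is the probability of `Z_t = k` for the walk with `Z_0 = 0` which steps from `k`
to `k + 1` with probability `P (x + k α)` and to `k - 1` with probability `1 - P (x + k α)`. -/
noncomputable def law (P : ℝ → ℝ) (α x : ℝ) : ℕ → ℤ → ℝ
  | 0 => fun k => if k = 0 then 1 else 0
  | t + 1 => fun k => P (x + ((k - 1 : ℤ) : ℝ) * α) * law P α x t (k - 1) +
      (1 - P (x + ((k + 1 : ℤ) : ℝ) * α)) * law P α x t (k + 1)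

/-- The variance of `Z_t`. -/
noncomputable def variance (P : ℝ → ℝ) (α x : ℝ) (t : ℕ) : ℝ :=
  ∑' k : ℤ, (k : ℝ) ^ 2 * law P α x t k - (∑' k : ℤ, (k : ℝ) * law P α x t k) ^ 2

/-- `α` is Diophantine. -/
def Diophantine (α : ℝ) : Prop :=
  ∃ γ τ : ℝ, 0 < γ ∧ 0 ≤ τ ∧ ∀ (p : ℤ) (q : ℕ), 1 ≤ q → γ * (q : ℝ) ^ (-2 - τ) ≤ |α - p / q|

/-- The upper growth exponent of the variance, `limsup ln Var_x (Z_T) / ln T`. -/
noncomputable def exponent (P : ℝ → ℝ) (α x : ℝ) : EReal :=
  limsup (fun T : ℕ => ((Real.log (variance P α x T) / Real.log T : ℝ) : EReal)) atTop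

theorem law_eq (P : ℝ → ℝ) (α x : ℝ) (t : ℕ) :
    law P α x t = E8helper72.LW.law (fun k => P (x + k * α)) t := by
  induction t with
  | zero => rfl
  | succ t ih =>
    funext k
    simp only [law, E8helper72.LW.law, ih]

theorem variance_eq (P : ℝ → ℝ) (α x : ℝ) (t : ℕ) :
    variance P α x t = E8helper72.LW.Var (fun k => P (x + k * α)) t := by
  unfold variance E8helper72.LW.Var
  rw [law_eq]

theorem symmetric_half : Symmetric fun _ => 1 / 2 where
  smooth := fun n => contDiff_const
  periodic := fun _ => rfl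
  pos := fun _ => by norm_num
  lt_one := fun _ => by norm_num
  symmetric := by norm_num

/-- There is a Liouville number `α` such that, for every symmetric `P` and almost every `x`,
`Var_x (Z_T) ≤ T ^ (2 - 1 / 250)` for all large `T`; in particular the upper growth exponent of the
variance is at most `2 - 1 / 250`. Hence, whatever the topology of the set of all symmetric `P`, the
set of those `P` for which the exponent is `2` for almost every `x` contains no dense `G_δ` set. -/
theorem result : ∃ α : ℝ, 0 < α ∧ α < 1 ∧ Irrational α ∧ ¬ Diophantine α ∧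
    (∀ P : ℝ → ℝ, Symmetric P → ∀ᵐ x ∂(volume.restrict (Set.Icc (0 : ℝ) 1)),
      (∀ᶠ T : ℕ in atTop, variance P α x T ≤ (T : ℝ) ^ ((2 : ℝ) - 1 / 250)) ∧
        exponent P α x ≤ (((2 : ℝ) - 1 / 250 : ℝ) : EReal)) ∧
    ∀ _top : TopologicalSpace {P : ℝ → ℝ // Symmetric P},
      ¬ ∃ S : Set {P : ℝ → ℝ // Symmetric P}, IsGδ S ∧ Dense S ∧
        ∀ P ∈ S, ∀ᵐ x ∂(volume.restrict (Set.Icc (0 : ℝ) 1)), exponent P.1 α x = 2 := by
  have key : ∀ P : ℝ → ℝ, Symmetric P → ∀ᵐ x ∂(volume.restrict (Set.Icc (0 : ℝ) 1)),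
      (∀ᶠ T : ℕ in atTop,
        variance P E8helper72.LW.alpha x T ≤ (T : ℝ) ^ ((2 : ℝ) - 1 / 250)) ∧
        exponent P E8helper72.LW.alpha x ≤ (((2 : ℝ) - 1 / 250 : ℝ) : EReal) := by
    intro P hP
    filter_upwards [E8helper72.LW.main P (by exact_mod_cast hP.smooth 2) hP.periodic hP.pos
      hP.lt_one hP.symmetric] with x hx
    have h1 : ∀ᶠ T : ℕ in atTop,
        variance P E8helper72.LW.alpha x T ≤ (T : ℝ) ^ ((2 : ℝ) - 1 / 250) := by
      filter_upwards [hx] with T hT
      rw [variance_eq]
      exact hT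
    refine ⟨h1, E8helper72.LW.limsup_le (fun T => ?_) _ (by norm_num) h1⟩
    rw [variance_eq]
    exact E8helper72.LW.Var_nonneg (fun k => ⟨hP.pos _, hP.lt_one _⟩) T
  refine ⟨E8helper72.LW.alpha, E8helper72.LW.alpha_mem.1, E8helper72.LW.alpha_mem.2,
    E8helper72.LW.alpha_irrational, ?_, key, ?_⟩
  · rintro ⟨γ, τ, hγ, -, h⟩
    obtain ⟨p, q, hq, hpq⟩ := E8helper72.LW.alpha_liouville γ τ hγ
    exact absurd (h p q hq) (not_le.2 hpq)
  · rintro _ ⟨S, -, hS, h⟩
    have : Nonempty {P : ℝ → ℝ // Symmetric P} := ⟨⟨_, symmetric_half⟩⟩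
    obtain ⟨P, hP⟩ := hS.nonempty
    have : (ae (volume.restrict (Set.Icc (0 : ℝ) 1))).NeBot := by
      rw [ae_neBot]
      intro h0
      have := congrArg (fun μ => μ Set.univ) h0
      simp at this
    obtain ⟨x, hx1, hx2⟩ := ((h P hP).and (key P.1 P.2)).exists
    have h3 := hx2.2
    rw [hx1] at h3
    rw [show (2 : EReal) = ((2 : ℝ) : EReal) from rfl] at h3
    have h5 := EReal.coe_le_coe_iff.1 h3
    norm_num at h5

end Pool.Agent.Results.MP_545af4_pr.NotQuadraticH72
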